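import Pool.Agent.Run7.h172.RHDefs

namespace Pool.Agent.Run7.h172.RH

/-- One unlabelled move inside the region `G`. -/
def Step (G : ℤ → ℤ → Prop) (X Y : Board) : Prop :=
  (∃ i j j', (j' = j + 1 ∨ j' = j - 1) ∧ G i j ∧ G i j' ∧ X i j = some Ori.H ∧ X i j' = none ∧
    Y = put (put X i j none) i j' (some Ori.H)) ∨
  (∃ i i' j, (i' = i + 1 ∨ i' = i - 1) ∧ G i j ∧ G i' j ∧ X i j = some Ori.V ∧ X i' j = none ∧
    Y = put (put X i j none) i' j (some Ori.V))

abbrev Conn (G : ℤ → ℤ → Prop) : Board → Board → Prop := Relation.ReflTransGen (Step G)

theorem put_same (X : Board) (i j : ℤ) (o : Option Ori) : put X i j o i j = o := by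
  simp [put]

theorem put_ne (X : Board) (i j a b : ℤ) (o : Option Ori) (h : ¬ (a = i ∧ b = j)) :
    put X i j o a b = X a b := by
  simp [put, h]

theorem Step.symm {G : ℤ → ℤ → Prop} {X Y : Board} (h : Step G X Y) : Step G Y X := by
  rcases h with ⟨i, j, j', hj, hg, hg', h, h', rfl⟩ | ⟨i, i', j, hi, hg, hg', h, h', rfl⟩
  · refine Or.inl ⟨i, j', j, by omega, hg', hg, put_same _ _ _ _, ?_, ?_⟩
    · rw [put_ne _ _ _ _ _ _ (by omega), put_same]
    · funext a b
      simp only [put]
      split_ifs with h1 h2 h3
      · rw [h1.1, h1.2, h]
      · rw [h2.1, h2.2, h']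
      · rfl
  · refine Or.inr ⟨i', i, j, by omega, hg', hg, put_same _ _ _ _, ?_, ?_⟩
    · rw [put_ne _ _ _ _ _ _ (by omega), put_same]
    · funext a b
      simp only [put]
      split_ifs with h1 h2 h3
      · rw [h1.1, h1.2, h]
      · rw [h2.1, h2.2, h']
      · rfl

theorem Conn.symm {G : ℤ → ℤ → Prop} {X Y : Board} (h : Conn G X Y) : Conn G Y X := by
  induction h with
  | refl => exact Relation.ReflTransGen.refl
  | tail _ h2 ih => exact Relation.ReflTransGen.head h2.symm ih

theorem Conn.trans {G : ℤ → ℤ → Prop} {X Y Z : Board} (h : Conn G X Y) (h' : Conn G Y Z) :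
    Conn G X Z := Relation.ReflTransGen.trans h h'

theorem Step.conn {G : ℤ → ℤ → Prop} {X Y : Board} (h : Step G X Y) : Conn G X Y :=
  Relation.ReflTransGen.single h

theorem stepV {G : ℤ → ℤ → Prop} (X : Board) (i i' j : ℤ) (hi : i' = i + 1 ∨ i' = i - 1)
    (hg : G i j) (hg' : G i' j) (h : X i j = some Ori.V) (h' : X i' j = none) :
    Conn G X (put (put X i j none) i' j (some Ori.V)) :=
  Step.conn (Or.inr ⟨i, i', j, hi, hg, hg', h, h', rfl⟩)

theorem stepH {G : ℤ → ℤ → Prop} (X : Board) (i j j' : ℤ) (hj : j' = j + 1 ∨ j' = j - 1)
    (hg : G i j) (hg' : G i j') (h : X i j = some Ori.H) (h' : X i j' = none) :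
    Conn G X (put (put X i j none) i j' (some Ori.H)) :=
  Step.conn (Or.inl ⟨i, j, j', hj, hg, hg', h, h', rfl⟩)

/-- The extraction claims in the positive quadrant. -/
theorem extract (G : ℤ → ℤ → Prop) : ∀ (N : ℕ) (i j : ℤ), 1 ≤ i → 1 ≤ j → i + j ≤ N →
    (∀ a b, 0 ≤ a → a ≤ i → 0 ≤ b → b ≤ j → G a b) →
    (∀ X : Board, (∀ c, 0 ≤ c → c ≤ j → X 0 c = none) → (∀ k, 0 ≤ k → k < i → X k 0 = none) →
      X i j = some Ori.V → Conn G X (put (put X i j none) 0 j (some Ori.V))) ∧
    (∀ X : Board, (∀ k, 0 ≤ k → k ≤ i → X k 0 = none) → (∀ c, 0 ≤ c → c < j → X 0 c = none) →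
      X i j = some Ori.H → Conn G X (put (put X i j none) i 0 (some Ori.H))) := by
  intro N
  induction N with
  | zero => intro i j hi hj hN; omega
  | succ N ih =>
    intro i j hi hj hN hG
    constructor
    · intro X hrow hcol hX
      by_cases hi1 : i = 1
      · subst hi1
        exact stepV X 1 0 j (by omega) (hG _ _ (by omega) (by omega) (by omega) (by omega))
          (hG _ _ (by omega) (by omega) (by omega) (by omega)) hX (hrow j (by omega) (by omega))
      · obtain ⟨ihV, ihH⟩ := ih (i - 1) j (by omega) hj (by omega)
          (fun a b h1 h2 h3 h4 => hG a b h1 (by omega) h3 h4)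
        have hGij : G i j := hG _ _ (by omega) (by omega) (by omega) (by omega)
        have hGi1j : G (i - 1) j := hG _ _ (by omega) (by omega) (by omega) (by omega)
        rcases hc : X (i - 1) j with _ | o
        · -- the cell above is empty
          have s1 := stepV X i (i - 1) j (by omega) hGij hGi1j hX hc
          set X1 := put (put X i j none) (i - 1) j (some Ori.V) with hX1
          have s2 := ihV X1 (by
              intro c h1 h2
              rw [hX1, put_ne _ _ _ _ _ _ (by omega), put_ne _ _ _ _ _ _ (by omega)]
              exact hrow c h1 h2) (by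
              intro k h1 h2
              rw [hX1, put_ne _ _ _ _ _ _ (by omega), put_ne _ _ _ _ _ _ (by omega)]
              exact hcol k h1 (by omega)) (by rw [hX1, put_same])
          have e : put (put X1 (i - 1) j none) 0 j (some Ori.V) =
              put (put X i j none) 0 j (some Ori.V) := by
            funext a b
            simp only [hX1, put]
            split_ifs <;> first | rfl | omega | simp_all
          rw [e] at s2
          exact s1.trans s2
        · cases o with
          | V =>
            have s1 := ihV X (fun c h1 h2 => hrow c h1 h2) (fun k h1 h2 => hcol k h1 (by omega)) hc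
            set X1 := put (put X (i - 1) j none) 0 j (some Ori.V) with hX1
            have s2 := stepV X1 i (i - 1) j (by omega) hGij hGi1j
              (by rw [hX1, put_ne _ _ _ _ _ _ (by omega), put_ne _ _ _ _ _ _ (by omega), hX])
              (by rw [hX1, put_ne _ _ _ _ _ _ (by omega), put_same])
            have e : put (put X1 i j none) (i - 1) j (some Ori.V) =
                put (put X i j none) 0 j (some Ori.V) := by
              funext a b
              simp only [hX1, put]
              split_ifs <;> first | rfl | omega | simp_all
            rw [e] at s2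
            exact s1.trans s2
          | H =>
            have s1 := ihH X (fun k h1 h2 => hcol k h1 (by omega))
              (fun c h1 h2 => hrow c h1 (by omega)) hc
            set X1 := put (put X (i - 1) j none) (i - 1) 0 (some Ori.H) with hX1
            have s2 := stepV X1 i (i - 1) j (by omega) hGij hGi1j
              (by rw [hX1, put_ne _ _ _ _ _ _ (by omega), put_ne _ _ _ _ _ _ (by omega), hX])
              (by rw [hX1, put_ne _ _ _ _ _ _ (by omega), put_same])
            set X2 := put (put X1 i j none) (i - 1) j (some Ori.V) with hX2
            have s3 := ihV X2 (by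
                intro c h1 h2
                rw [hX2, put_ne _ _ _ _ _ _ (by omega), put_ne _ _ _ _ _ _ (by omega), hX1,
                  put_ne _ _ _ _ _ _ (by omega), put_ne _ _ _ _ _ _ (by omega)]
                exact hrow c h1 h2) (by
                intro k h1 h2
                rw [hX2, put_ne _ _ _ _ _ _ (by omega), put_ne _ _ _ _ _ _ (by omega), hX1,
                  put_ne _ _ _ _ _ _ (by omega), put_ne _ _ _ _ _ _ (by omega)]
                exact hcol k h1 (by omega)) (by rw [hX2, put_same])
            set T := put (put X i j none) 0 j (some Ori.V) with hT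
            have s4 := ihH T (by
                intro k h1 h2
                rw [hT, put_ne _ _ _ _ _ _ (by omega), put_ne _ _ _ _ _ _ (by omega)]
                exact hcol k h1 (by omega)) (by
                intro c h1 h2
                rw [hT, put_ne _ _ _ _ _ _ (by omega), put_ne _ _ _ _ _ _ (by omega)]
                exact hrow c h1 (by omega))
              (by rw [hT, put_ne _ _ _ _ _ _ (by omega), put_ne _ _ _ _ _ _ (by omega), hc])
            have e : put (put X2 (i - 1) j none) 0 j (some Ori.V) =
                put (put T (i - 1) j none) (i - 1) 0 (some Ori.H) := by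
              funext a b
              simp only [hX2, hX1, hT, put]
              split_ifs <;> first | rfl | omega | simp_all
            rw [e] at s3
            exact ((s1.trans s2).trans s3).trans s4.symm
    · intro X hcol hrow hX
      by_cases hj1 : j = 1
      · subst hj1
        exact stepH X i 1 0 (by omega) (hG _ _ (by omega) (by omega) (by omega) (by omega))
          (hG _ _ (by omega) (by omega) (by omega) (by omega)) hX (hcol i (by omega) (by omega))
      · obtain ⟨ihV, ihH⟩ := ih i (j - 1) hi (by omega) (by omega)
          (fun a b h1 h2 h3 h4 => hG a b h1 h2 h3 (by omega))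
        have hGij : G i j := hG _ _ (by omega) (by omega) (by omega) (by omega)
        have hGij1 : G i (j - 1) := hG _ _ (by omega) (by omega) (by omega) (by omega)
        rcases hc : X i (j - 1) with _ | o
        · have s1 := stepH X i j (j - 1) (by omega) hGij hGij1 hX hc
          set X1 := put (put X i j none) i (j - 1) (some Ori.H) with hX1
          have s2 := ihH X1 (by
              intro k h1 h2
              rw [hX1, put_ne _ _ _ _ _ _ (by omega), put_ne _ _ _ _ _ _ (by omega)]
              exact hcol k h1 h2) (by
              intro c h1 h2
              rw [hX1, put_ne _ _ _ _ _ _ (by omega), put_ne _ _ _ _ _ _ (by omega)]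
              exact hrow c h1 (by omega)) (by rw [hX1, put_same])
          have e : put (put X1 i (j - 1) none) i 0 (some Ori.H) =
              put (put X i j none) i 0 (some Ori.H) := by
            funext a b
            simp only [hX1, put]
            split_ifs <;> first | rfl | omega | simp_all
          rw [e] at s2
          exact s1.trans s2
        · cases o with
          | H =>
            have s1 := ihH X (fun k h1 h2 => hcol k h1 h2) (fun c h1 h2 => hrow c h1 (by omega)) hc
            set X1 := put (put X i (j - 1) none) i 0 (some Ori.H) with hX1
            have s2 := stepH X1 i j (j - 1) (by omega) hGij hGij1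
              (by rw [hX1, put_ne _ _ _ _ _ _ (by omega), put_ne _ _ _ _ _ _ (by omega), hX])
              (by rw [hX1, put_ne _ _ _ _ _ _ (by omega), put_same])
            have e : put (put X1 i j none) i (j - 1) (some Ori.H) =
                put (put X i j none) i 0 (some Ori.H) := by
              funext a b
              simp only [hX1, put]
              split_ifs <;> first | rfl | omega | simp_all
            rw [e] at s2
            exact s1.trans s2
          | V =>
            have s1 := ihV X (fun c h1 h2 => hrow c h1 (by omega))
              (fun k h1 h2 => hcol k h1 (by omega)) hc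
            set X1 := put (put X i (j - 1) none) 0 (j - 1) (some Ori.V) with hX1
            have s2 := stepH X1 i j (j - 1) (by omega) hGij hGij1
              (by rw [hX1, put_ne _ _ _ _ _ _ (by omega), put_ne _ _ _ _ _ _ (by omega), hX])
              (by rw [hX1, put_ne _ _ _ _ _ _ (by omega), put_same])
            set X2 := put (put X1 i j none) i (j - 1) (some Ori.H) with hX2
            have s3 := ihH X2 (by
                intro k h1 h2
                rw [hX2, put_ne _ _ _ _ _ _ (by omega), put_ne _ _ _ _ _ _ (by omega), hX1,
                  put_ne _ _ _ _ _ _ (by omega), put_ne _ _ _ _ _ _ (by omega)]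
                exact hcol k h1 h2) (by
                intro c h1 h2
                rw [hX2, put_ne _ _ _ _ _ _ (by omega), put_ne _ _ _ _ _ _ (by omega), hX1,
                  put_ne _ _ _ _ _ _ (by omega), put_ne _ _ _ _ _ _ (by omega)]
                exact hrow c h1 (by omega)) (by rw [hX2, put_same])
            set T := put (put X i j none) i 0 (some Ori.H) with hT
            have s4 := ihV T (by
                intro c h1 h2
                rw [hT, put_ne _ _ _ _ _ _ (by omega), put_ne _ _ _ _ _ _ (by omega)]
                exact hrow c h1 (by omega)) (by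
                intro k h1 h2
                rw [hT, put_ne _ _ _ _ _ _ (by omega), put_ne _ _ _ _ _ _ (by omega)]
                exact hcol k h1 (by omega))
              (by rw [hT, put_ne _ _ _ _ _ _ (by omega), put_ne _ _ _ _ _ _ (by omega), hc])
            have e : put (put X2 i (j - 1) none) i 0 (some Ori.H) =
                put (put T i (j - 1) none) 0 (j - 1) (some Ori.V) := by
              funext a b
              simp only [hX2, hX1, hT, put]
              split_ifs <;> first | rfl | omega | simp_all
            rw [e] at s3
            exact ((s1.trans s2).trans s3).trans s4.symm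

end Pool.Agent.Run7.h172.RH
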