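import Mathlib

/-!
# 1x1 Rush Hour: boards, moves, instances
Rows are indexed by the first coordinate and columns by the second one.
-/

namespace Pool.Agent.Run7.h172.RH

/-- The orientation of a block. -/
inductive Ori
  | H
  | V
  deriving DecidableEq

/-- A placement of blocks: `X i j` is the block in row `i`, column `j`, or `none` if that cell
holds no block. -/
abbrev Board := ℤ → ℤ → Option Ori

/-- The cells of the grid with `m` rows and `n` columns. -/
def InGrid (m n : ℕ) (i j : ℤ) : Prop := 0 ≤ i ∧ i < m ∧ 0 ≤ j ∧ j < n

/-- The placement obtained from `X` by changing the content of the cell `(i, j)` to `o`. -/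
def put (X : Board) (i j : ℤ) (o : Option Ori) : Board :=
  fun a b => if a = i ∧ b = j then o else X a b

/-- One unit move in the `m × n` grid. A state is a placement together with the position of the
target block. A horizontal block moves to an empty neighbouring cell of its row, a vertical block
to an empty neighbouring cell of its column; the target position follows the target block. -/
inductive Move (m n : ℕ) : Board × (ℤ × ℤ) → Board × (ℤ × ℤ) → Prop
  | horiz (X : Board) (p : ℤ × ℤ) (i j j' : ℤ) (hj : j' = j + 1 ∨ j' = j - 1)
      (hg : InGrid m n i j) (hg' : InGrid m n i j') (h : X i j = some Ori.H)
      (h' : X i j' = none) :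
      Move m n (X, p)
        (put (put X i j none) i j' (some Ori.H), if p = (i, j) then (i, j') else p)
  | vert (X : Board) (p : ℤ × ℤ) (i i' j : ℤ) (hi : i' = i + 1 ∨ i' = i - 1)
      (hg : InGrid m n i j) (hg' : InGrid m n i' j) (h : X i j = some Ori.V)
      (h' : X i' j = none) :
      Move m n (X, p)
        (put (put X i j none) i' j (some Ori.V), if p = (i, j) then (i', j) else p)

/-- The four sides of a cell. -/
inductive Side
  | left
  | right
  | top
  | bottom

/-- The orientation of the blocks whose direction of motion crosses the given side of a cell. -/
def Side.ori : Side → Ori
  | Side.left => Ori.H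
  | Side.right => Ori.H
  | Side.top => Ori.V
  | Side.bottom => Ori.V

/-- The given side of the cell `(i, j)` lies on the boundary of the `m × n` grid. -/
def Side.OnBoundary (m n : ℕ) (i j : ℤ) : Side → Prop
  | Side.left => j = 0
  | Side.right => j = n - 1
  | Side.top => i = 0
  | Side.bottom => i = m - 1

/-- An instance of 1x1 Rush Hour on the `m × n` grid: a placement of blocks inside the grid, a
target block, and a one-unit opening, given by a cell of the grid and one of its sides lying on the
boundary of the grid. -/
structure Instance (m n : ℕ) where
  /-- the initial placement -/
  board : Board
  /-- all blocks lie in the grid -/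
  inGrid : ∀ i j, board i j ≠ none → InGrid m n i j
  /-- the initial cell of the target block -/
  target : ℤ × ℤ
  /-- there is a block in that cell -/
  target_block : board target.1 target.2 ≠ none
  /-- the cell of the opening -/
  exit : ℤ × ℤ
  /-- it is a cell of the grid -/
  exit_inGrid : InGrid m n exit.1 exit.2
  /-- the side of the opening -/
  side : Side
  /-- that side is on the boundary of the grid -/
  side_boundary : side.OnBoundary m n exit.1 exit.2

/-- The instance is solvable: some finite sequence of moves brings the target block to the cell of
the opening, and the target can then leave through the opening, since its direction of motion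
crosses the side of the opening. -/
def Instance.Solvable {m n : ℕ} (I : Instance m n) : Prop :=
  ∃ Y : Board, Relation.ReflTransGen (Move m n) (I.board, I.target) (Y, I.exit) ∧
    Y I.exit.1 I.exit.2 = some I.side.ori

/-- There is no obvious obstruction: the opening is crossed by the direction of motion of the
target, it lies in the line (row or column) along which the target moves, and initially no block of
the same orientation as the target lies in this line between the target and the opening. -/
def Instance.Unobstructed {m n : ℕ} (I : Instance m n) : Prop :=
  I.board I.target.1 I.target.2 = some I.side.ori ∧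
  match I.side with
  | Side.left => I.target.1 = I.exit.1 ∧
      ∀ j, j < I.target.2 → I.board I.target.1 j ≠ some Ori.H
  | Side.right => I.target.1 = I.exit.1 ∧
      ∀ j, I.target.2 < j → I.board I.target.1 j ≠ some Ori.H
  | Side.top => I.target.2 = I.exit.2 ∧
      ∀ i, i < I.target.1 → I.board i I.target.2 ≠ some Ori.V
  | Side.bottom => I.target.2 = I.exit.2 ∧
      ∀ i, I.target.1 < i → I.board i I.target.2 ≠ some Ori.V

end Pool.Agent.Run7.h172.RH
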