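import Pool.Agent.Run7.h172.RHMain

namespace Pool.Agent.Run7.h172.RH

/-- All blocks lie in the grid. -/
def Supp (m n : ℕ) (X : Board) : Prop := ∀ i j, X i j ≠ none → InGrid m n i j

/-- an unlabelled step lifts to a labelled move -/
theorem Step.lift {m n : ℕ} {X Y : Board} (h : Step (InGrid m n) X Y) (p : ℤ × ℤ) :
    ∃ q, Move m n (X, p) (Y, q) := by
  rcases h with ⟨i, j, j', hj, hg, hg', h, h', rfl⟩ | ⟨i, i', j, hi, hg, hg', h, h', rfl⟩
  · exact ⟨_, Move.horiz X p i j j' hj hg hg' h h'⟩
  · exact ⟨_, Move.vert X p i i' j hi hg hg' h h'⟩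

theorem Conn.lift {m n : ℕ} {X Y : Board} (h : Conn (InGrid m n) X Y) (p : ℤ × ℤ) :
    ∃ q, Relation.ReflTransGen (Move m n) (X, p) (Y, q) := by
  induction h with
  | refl => exact ⟨p, Relation.ReflTransGen.refl⟩
  | tail _ h2 ih =>
    obtain ⟨q, hq⟩ := ih
    obtain ⟨q', hq'⟩ := h2.lift q
    exact ⟨q', hq.tail hq'⟩

/-- Some horizontal block lies to the right of the target, in its row. -/
def Above (s : Board × (ℤ × ℤ)) : Prop := ∃ j, s.2.2 < j ∧ s.1 s.2.1 j = some Ori.H

/-- The invariant carried along a labelled path whose target is a horizontal block of row `r`. -/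
structure Inv (m n : ℕ) (r : ℤ) (A : Prop) (s : Board × (ℤ × ℤ)) : Prop where
  supp : Supp m n s.1
  tgt : s.1 s.2.1 s.2.2 = some Ori.H
  row : s.2.1 = r
  above : Above s ↔ A

theorem Inv.move {m n : ℕ} {r : ℤ} {A : Prop} {s s' : Board × (ℤ × ℤ)} (h : Inv m n r A s)
    (hm : Move m n s s') : Inv m n r A s' := by
  obtain ⟨hs, ht, hr, ha⟩ := h
  cases hm with
  | horiz X p i j j' hj hg hg' h h' =>
    simp only at hs ht hr ha
    by_cases hp : p = (i, j)
    · subst hp
      simp only [if_pos] at *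
      refine ⟨?_, ?_, hr, ?_⟩
      · intro a b hab
        simp only [put] at hab
        split_ifs at hab with h1 h2
        · rw [h1.1, h1.2]; exact hg'
        · exact absurd rfl hab
        · exact hs a b hab
      · simp [put]
      · rw [← ha]
        simp only [Above]
        constructor
        · rintro ⟨c, hc, hc'⟩
          rw [put_ne _ _ _ _ _ _ (by omega)] at hc'
          by_cases hcj : c = j
          · subst hcj; rw [put_same] at hc'; exact absurd hc' (by simp)
          · rw [put_ne _ _ _ _ _ _ (by omega)] at hc'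
            exact ⟨c, by omega, hc'⟩
        · rintro ⟨c, hc, hc'⟩
          have hne : c ≠ j' := by rintro rfl; rw [h'] at hc'; exact absurd hc' (by simp)
          refine ⟨c, by omega, ?_⟩
          rw [put_ne _ _ _ _ _ _ (by omega), put_ne _ _ _ _ _ _ (by omega)]
          exact hc'
    · simp only [if_neg hp] at *
      obtain ⟨p1, p2⟩ := p
      simp only [Prod.mk.injEq] at *
      have hne' : ¬ (p1 = i ∧ p2 = j') := by
        rintro ⟨rfl, rfl⟩; rw [h'] at ht; exact absurd ht (by simp)
      refine ⟨?_, ?_, hr, ?_⟩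
      · intro a b hab
        simp only [put] at hab
        split_ifs at hab with h1 h2
        · rw [h1.1, h1.2]; exact hg'
        · exact absurd rfl hab
        · exact hs a b hab
      · simp only
        rw [put_ne _ _ _ _ _ _ hne', put_ne _ _ _ _ _ _ hp]; exact ht
      · rw [← ha]
        simp only [Above]
        constructor
        · rintro ⟨c, hc, hc'⟩
          simp only [put] at hc'
          split_ifs at hc' with h1 h2
          · exact ⟨j, by omega, by rw [h1.1]; exact h⟩
          · exact ⟨c, hc, hc'⟩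
        · rintro ⟨c, hc, hc'⟩
          by_cases h1 : p1 = i ∧ c = j
          · refine ⟨j', by omega, ?_⟩
            rw [h1.1, put_same]
          · refine ⟨c, hc, ?_⟩
            have h2 : ¬ (p1 = i ∧ c = j') := by
              rintro ⟨rfl, rfl⟩; rw [h'] at hc'; exact absurd hc' (by simp)
            rw [put_ne _ _ _ _ _ _ h2, put_ne _ _ _ _ _ _ h1]; exact hc'
  | vert X p i i' j hi hg hg' h h' =>
    simp only at hs ht hr ha
    have hp : p ≠ (i, j) := by
      rintro rfl; simp only at ht; rw [h] at ht; exact absurd ht (by simp)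
    simp only [if_neg hp]
    obtain ⟨p1, p2⟩ := p
    simp only [ne_eq, Prod.mk.injEq] at *
    have hne' : ¬ (p1 = i' ∧ p2 = j) := by
      rintro ⟨rfl, rfl⟩; rw [h'] at ht; exact absurd ht (by simp)
    refine ⟨?_, ?_, hr, ?_⟩
    · intro a b hab
      simp only [put] at hab
      split_ifs at hab with h1 h2
      · rw [h1.1, h1.2]; exact hg'
      · exact absurd rfl hab
      · exact hs a b hab
    · simp only
      rw [put_ne _ _ _ _ _ _ hne', put_ne _ _ _ _ _ _ hp]; exact ht
    · rw [← ha]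
      simp only [Above]
      constructor
      · rintro ⟨c, hc, hc'⟩
        simp only [put] at hc'
        split_ifs at hc' with h1 h2
        · simp at hc'
        · exact ⟨c, hc, hc'⟩
      · rintro ⟨c, hc, hc'⟩
        have h1 : ¬ (p1 = i ∧ c = j) := by
          rintro ⟨rfl, rfl⟩; rw [h] at hc'; exact absurd hc' (by simp)
        have h2 : ¬ (p1 = i' ∧ c = j) := by
          rintro ⟨rfl, rfl⟩; rw [h'] at hc'; exact absurd hc' (by simp)
        refine ⟨c, hc, ?_⟩
        rw [put_ne _ _ _ _ _ _ h2, put_ne _ _ _ _ _ _ h1]; exact hc'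

theorem Inv.path {m n : ℕ} {r : ℤ} {A : Prop} {s s' : Board × (ℤ × ℤ)} (h : Inv m n r A s)
    (hm : Relation.ReflTransGen (Move m n) s s') : Inv m n r A s' := by
  induction hm with
  | refl => exact h
  | tail _ h2 ih => exact ih.move h2

/-- The orientation of the target never changes. -/
theorem ori_move {m n : ℕ} {s s' : Board × (ℤ × ℤ)} (hm : Move m n s s')
    (h0 : s.1 s.2.1 s.2.2 ≠ none) : s'.1 s'.2.1 s'.2.2 = s.1 s.2.1 s.2.2 := by
  cases hm with
  | horiz X p i j j' hj hg hg' h h' =>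
    simp only at h0 ⊢
    by_cases hp : p = (i, j)
    · subst hp; simp only [if_pos, put_same]; exact h.symm
    · simp only [if_neg hp]
      obtain ⟨p1, p2⟩ := p
      simp only [Prod.mk.injEq] at *
      have hne' : ¬ (p1 = i ∧ p2 = j') := by rintro ⟨rfl, rfl⟩; exact h0 h'
      rw [put_ne _ _ _ _ _ _ hne', put_ne _ _ _ _ _ _ hp]
  | vert X p i i' j hi hg hg' h h' =>
    simp only at h0 ⊢
    by_cases hp : p = (i, j)
    · subst hp; simp only [if_pos, put_same]; exact h.symm
    · simp only [if_neg hp]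
      obtain ⟨p1, p2⟩ := p
      simp only [Prod.mk.injEq] at *
      have hne' : ¬ (p1 = i' ∧ p2 = j) := by rintro ⟨rfl, rfl⟩; exact h0 h'
      rw [put_ne _ _ _ _ _ _ hne', put_ne _ _ _ _ _ _ hp]

theorem ori_path {m n : ℕ} {s s' : Board × (ℤ × ℤ)} (hm : Relation.ReflTransGen (Move m n) s s')
    (h0 : s.1 s.2.1 s.2.2 ≠ none) : s'.1 s'.2.1 s'.2.2 = s.1 s.2.1 s.2.2 := by
  induction hm with
  | refl => rfl
  | tail _ h2 ih => rw [ori_move h2 (by rw [ih]; exact h0), ih]

/-- The theorem for the right side, in terms of bare data. -/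
theorem right_core (m n : ℕ) (X : Board) (hX : Supp m n X) (p e : ℤ × ℤ)
    (hp : X p.1 p.2 ≠ none) (he : InGrid m n e.1 e.2) (heb : e.2 = n - 1)
    (i₀ j₀ : ℤ) (h0 : InGrid m n i₀ j₀)
    (hcol : ∀ i, min i₀ p.1 ≤ i → i ≤ max i₀ p.1 → X i j₀ = none)
    (hrow : ∀ j, min j₀ (min p.2 e.2) ≤ j → j ≤ max j₀ (max p.2 e.2) → X i₀ j = none) :
    (∃ Y : Board, Relation.ReflTransGen (Move m n) (X, p) (Y, e) ∧ Y e.1 e.2 = some Ori.H) ↔
    (X p.1 p.2 = some Ori.H ∧ p.1 = e.1 ∧ ∀ j, p.2 < j → X p.1 j ≠ some Ori.H) := by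
  constructor
  · rintro ⟨Y, hpath, hY⟩
    have ho := ori_path hpath hp
    simp only at ho
    have hH : X p.1 p.2 = some Ori.H := by rw [← ho]; exact hY
    have inv0 : Inv m n p.1 (Above (X, p)) (X, p) := ⟨hX, hH, rfl, Iff.rfl⟩
    have inv1 := inv0.path hpath
    refine ⟨hH, inv1.row.symm, ?_⟩
    intro j hj hj'
    obtain ⟨c, hc, hc'⟩ := inv1.above.2 ⟨j, hj, hj'⟩
    have := inv1.supp e.1 c (by simp only at hc' ⊢; rw [hc']; simp)
    obtain ⟨-, -, -, h4⟩ := this
    simp only at hc
    omega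
  · rintro ⟨hH, hrow', hclear⟩
    obtain ⟨p1, p2⟩ := p
    obtain ⟨e1, e2⟩ := e
    simp only at *
    subst hrow'
    have hpg := hX p1 p2 hp
    obtain ⟨g1, g2, g3, g4⟩ := hpg
    obtain ⟨k1, k2, k3, k4⟩ := h0
    by_cases hpe : p2 = e2
    · subst hpe; exact ⟨X, Relation.ReflTransGen.refl, hH⟩
    · have hlt : p2 < e2 := by omega
      have hi0 : p1 ≠ i₀ := by
        rintro rfl
        exact hp (hrow p2 (by omega) (by omega))
      have hj0 : p2 ≠ j₀ := by
        rintro rfl
        exact hp (hcol p1 (by omega) (by omega))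
      obtain ⟨Z, hZ, hZe⟩ := main_unlabelled (InGrid m n) i₀ j₀ p1 p2 e2 hi0 hj0 hlt (by omega) X
        (fun a b h1 h2 h3 h4 => ⟨by omega, by omega, by omega, by omega⟩) hcol
        (fun c h1 h2 => hrow c (by omega) (by omega)) hH (hclear e2 hlt)
      obtain ⟨q, hq⟩ := hZ.lift (p1, p2)
      have inv0 : Inv m n p1 (Above (X, (p1, p2))) (X, (p1, p2)) := ⟨hX, hH, rfl, Iff.rfl⟩
      have inv1 := inv0.path hq
      have hno : ¬ Above (Z, q) := by
        rw [inv1.above]
        rintro ⟨c, hc, hc'⟩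
        exact hclear c hc hc'
      have hrow1 := inv1.row
      simp only at hrow1
      have hq2 : q.2 = e2 := by
        rcases lt_trichotomy q.2 e2 with h | h | h
        · exfalso
          exact hno ⟨e2, h, by simp only; rw [hrow1]; exact hZe⟩
        · exact h
        · exfalso
          have h1 := inv1.supp q.1 q.2 (by
            have := inv1.tgt
            simp only at this ⊢
            rw [this]; simp)
          obtain ⟨-, -, -, h5⟩ := h1
          omega
      have hqe : q = (p1, e2) := Prod.ext hrow1 hq2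
      rw [hqe] at hq
      exact ⟨Z, hq, hZe⟩


/-! ### Symmetries -/

/-- Solvability in terms of bare data. -/
def Solv (m n : ℕ) (X : Board) (p e : ℤ × ℤ) (o : Ori) : Prop :=
  ∃ Y : Board, Relation.ReflTransGen (Move m n) (X, p) (Y, e) ∧ Y e.1 e.2 = some o

/-- mirror image of a board (columns reversed) -/
def mirror (n : ℕ) (X : Board) : Board := fun i j => X i (n - 1 - j)

/-- mirror image of a state -/
def mirrorS (n : ℕ) (s : Board × (ℤ × ℤ)) : Board × (ℤ × ℤ) :=
  (mirror n s.1, (s.2.1, n - 1 - s.2.2))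

theorem mirror_put (n : ℕ) (X : Board) (i j : ℤ) (o : Option Ori) :
    mirror n (put X i j o) = put (mirror n X) i (n - 1 - j) o := by
  funext a b
  simp only [mirror, put]
  have : ((n : ℤ) - 1 - b = j) ↔ (b = n - 1 - j) := by omega
  simp only [this]

theorem mirror_mirror (n : ℕ) (X : Board) : mirror n (mirror n X) = X := by
  funext a b
  simp only [mirror]
  congr 1
  omega

theorem mirror_move {m n : ℕ} {s s' : Board × (ℤ × ℤ)} (h : Move m n s s') :
    Move m n (mirrorS n s) (mirrorS n s') := by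
  cases h with
  | horiz X p i j j' hj hg hg' h h' =>
    have e : mirrorS n (put (put X i j none) i j' (some Ori.H), if p = (i, j) then (i, j') else p)
        = (put (put (mirror n X) i (n - 1 - j) none) i (n - 1 - j') (some Ori.H),
            if ((p.1, n - 1 - p.2) : ℤ × ℤ) = (i, n - 1 - j) then (i, n - 1 - j')
            else ((p.1, n - 1 - p.2) : ℤ × ℤ)) := by
      simp only [mirrorS, mirror_put]
      congr 1
      obtain ⟨p1, p2⟩ := p
      simp only [Prod.mk.injEq]
      have : ((n : ℤ) - 1 - p2 = n - 1 - j) ↔ (p2 = j) := by omega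
      simp only [this]
      split_ifs <;> rfl
    rw [e]
    refine Move.horiz (mirror n X) (p.1, n - 1 - p.2) i (n - 1 - j) (n - 1 - j') (by omega) ?_ ?_
      ?_ ?_
    · obtain ⟨a, b, c, d⟩ := hg; exact ⟨a, b, by omega, by omega⟩
    · obtain ⟨a, b, c, d⟩ := hg'; exact ⟨a, b, by omega, by omega⟩
    · simp only [mirror]; rw [← h]; congr 1; omega
    · simp only [mirror]; rw [← h']; congr 1; omega
  | vert X p i i' j hi hg hg' h h' =>
    have e : mirrorS n (put (put X i j none) i' j (some Ori.V), if p = (i, j) then (i', j) else p)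
        = (put (put (mirror n X) i (n - 1 - j) none) i' (n - 1 - j) (some Ori.V),
            if ((p.1, n - 1 - p.2) : ℤ × ℤ) = (i, n - 1 - j) then (i', n - 1 - j)
            else ((p.1, n - 1 - p.2) : ℤ × ℤ)) := by
      simp only [mirrorS, mirror_put]
      congr 1
      obtain ⟨p1, p2⟩ := p
      simp only [Prod.mk.injEq]
      have : ((n : ℤ) - 1 - p2 = n - 1 - j) ↔ (p2 = j) := by omega
      simp only [this]
      split_ifs <;> rfl
    rw [e]
    refine Move.vert (mirror n X) (p.1, n - 1 - p.2) i i' (n - 1 - j) hi ?_ ?_ ?_ ?_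
    · obtain ⟨a, b, c, d⟩ := hg; exact ⟨a, b, by omega, by omega⟩
    · obtain ⟨a, b, c, d⟩ := hg'; exact ⟨a, b, by omega, by omega⟩
    · simp only [mirror]; rw [← h]; congr 1; omega
    · simp only [mirror]; rw [← h']; congr 1; omega

theorem mirror_path {m n : ℕ} {s s' : Board × (ℤ × ℤ)}
    (h : Relation.ReflTransGen (Move m n) s s') :
    Relation.ReflTransGen (Move m n) (mirrorS n s) (mirrorS n s') := by
  induction h with
  | refl => exact Relation.ReflTransGen.refl
  | tail _ h2 ih => exact ih.tail (mirror_move h2)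

theorem Solv.mirror {m n : ℕ} {X : Board} {p e : ℤ × ℤ} {o : Ori} (h : Solv m n X p e o) :
    Solv m n (RH.mirror n X) (p.1, n - 1 - p.2) (e.1, n - 1 - e.2) o := by
  obtain ⟨Y, hp, hY⟩ := h
  refine ⟨RH.mirror n Y, mirror_path hp, ?_⟩
  simp only [RH.mirror]
  rw [← hY]; congr 1; omega

/-- exchange of the two orientations -/
def flipO : Option Ori → Option Ori
  | none => none
  | some Ori.H => some Ori.V
  | some Ori.V => some Ori.H

theorem flipO_none {x : Option Ori} : flipO x = none ↔ x = none := by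
  rcases x with _ | (_ | _) <;> simp [flipO]

theorem flipO_H {x : Option Ori} : flipO x = some Ori.H ↔ x = some Ori.V := by
  rcases x with _ | (_ | _) <;> simp [flipO]

theorem flipO_V {x : Option Ori} : flipO x = some Ori.V ↔ x = some Ori.H := by
  rcases x with _ | (_ | _) <;> simp [flipO]

/-- transposed board -/
def tra (X : Board) : Board := fun i j => flipO (X j i)

theorem tra_tra (X : Board) : tra (tra X) = X := by
  funext a b
  simp only [tra]
  rcases X a b with _ | (_ | _) <;> rfl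

/-- transposed state -/
def traS (s : Board × (ℤ × ℤ)) : Board × (ℤ × ℤ) := (tra s.1, (s.2.2, s.2.1))

theorem tra_put (X : Board) (i j : ℤ) (o : Option Ori) :
    tra (put X i j o) = put (tra X) j i (flipO o) := by
  funext a b
  simp only [tra, put]
  by_cases h : a = j ∧ b = i
  · rw [if_pos h, if_pos ⟨h.2, h.1⟩]
  · rw [if_neg h, if_neg (fun h' => h ⟨h'.2, h'.1⟩)]

theorem tra_move {m n : ℕ} {s s' : Board × (ℤ × ℤ)} (h : Move m n s s') :
    Move n m (traS s) (traS s') := by
  cases h with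
  | horiz X p i j j' hj hg hg' h h' =>
    have e : traS (put (put X i j none) i j' (some Ori.H), if p = (i, j) then (i, j') else p)
        = (put (put (tra X) j i none) j' i (some Ori.V),
            if ((p.2, p.1) : ℤ × ℤ) = (j, i) then (j', i) else ((p.2, p.1) : ℤ × ℤ)) := by
      simp only [traS, tra_put]
      congr 1
      obtain ⟨p1, p2⟩ := p
      simp only [Prod.mk.injEq]
      by_cases h : p1 = i ∧ p2 = j
      · rw [if_pos h, if_pos ⟨h.2, h.1⟩]
      · rw [if_neg h, if_neg (fun h' => h ⟨h'.2, h'.1⟩)]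
    rw [e]
    refine Move.vert (tra X) (p.2, p.1) j j' i hj ?_ ?_ ?_ ?_
    · obtain ⟨a, b, c, d⟩ := hg; exact ⟨c, d, a, b⟩
    · obtain ⟨a, b, c, d⟩ := hg'; exact ⟨c, d, a, b⟩
    · simp only [tra]; rw [h]; rfl
    · simp only [tra]; rw [h']; rfl
  | vert X p i i' j hi hg hg' h h' =>
    have e : traS (put (put X i j none) i' j (some Ori.V), if p = (i, j) then (i', j) else p)
        = (put (put (tra X) j i none) j i' (some Ori.H),
            if ((p.2, p.1) : ℤ × ℤ) = (j, i) then (j, i') else ((p.2, p.1) : ℤ × ℤ)) := by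
      simp only [traS, tra_put]
      congr 1
      obtain ⟨p1, p2⟩ := p
      simp only [Prod.mk.injEq]
      by_cases h : p1 = i ∧ p2 = j
      · rw [if_pos h, if_pos ⟨h.2, h.1⟩]
      · rw [if_neg h, if_neg (fun h' => h ⟨h'.2, h'.1⟩)]
    rw [e]
    refine Move.horiz (tra X) (p.2, p.1) j i i' hi ?_ ?_ ?_ ?_
    · obtain ⟨a, b, c, d⟩ := hg; exact ⟨c, d, a, b⟩
    · obtain ⟨a, b, c, d⟩ := hg'; exact ⟨c, d, a, b⟩
    · simp only [tra]; rw [h]; rfl
    · simp only [tra]; rw [h']; rfl

theorem tra_path {m n : ℕ} {s s' : Board × (ℤ × ℤ)}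
    (h : Relation.ReflTransGen (Move m n) s s') :
    Relation.ReflTransGen (Move n m) (traS s) (traS s') := by
  induction h with
  | refl => exact Relation.ReflTransGen.refl
  | tail _ h2 ih => exact ih.tail (tra_move h2)

theorem Solv.tra {m n : ℕ} {X : Board} {p e : ℤ × ℤ} {o : Ori} (h : Solv m n X p e o) (o' : Ori)
    (ho : flipO (some o) = some o') :
    Solv n m (RH.tra X) (p.2, p.1) (e.2, e.1) o' := by
  obtain ⟨Y, hp, hY⟩ := h
  refine ⟨RH.tra Y, tra_path hp, ?_⟩
  simp only [RH.tra]
  rw [hY]; exact ho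

theorem solv_mirror {m n : ℕ} {X : Board} {p e : ℤ × ℤ} {o : Ori} :
    Solv m n X p e o ↔ Solv m n (mirror n X) (p.1, n - 1 - p.2) (e.1, n - 1 - e.2) o := by
  refine ⟨fun h => h.mirror, fun h => ?_⟩
  have := h.mirror
  rw [mirror_mirror] at this
  simpa using this

theorem solv_tra {m n : ℕ} {X : Board} {p e : ℤ × ℤ} :
    Solv m n X p e Ori.V ↔ Solv n m (tra X) (p.2, p.1) (e.2, e.1) Ori.H := by
  refine ⟨fun h => h.tra Ori.H rfl, fun h => ?_⟩
  have := h.tra Ori.V rfl
  rw [tra_tra] at this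
  simpa using this

theorem left_core (m n : ℕ) (X : Board) (hX : Supp m n X) (p e : ℤ × ℤ)
    (hp : X p.1 p.2 ≠ none) (he : InGrid m n e.1 e.2) (heb : e.2 = 0)
    (i₀ j₀ : ℤ) (h0 : InGrid m n i₀ j₀)
    (hcol : ∀ i, min i₀ p.1 ≤ i → i ≤ max i₀ p.1 → X i j₀ = none)
    (hrow : ∀ j, min j₀ (min p.2 e.2) ≤ j → j ≤ max j₀ (max p.2 e.2) → X i₀ j = none) :
    Solv m n X p e Ori.H ↔
    (X p.1 p.2 = some Ori.H ∧ p.1 = e.1 ∧ ∀ j, j < p.2 → X p.1 j ≠ some Ori.H) := by
  rw [solv_mirror]
  have hc := right_core m n (mirror n X) ?_ (p.1, n - 1 - p.2) (e.1, n - 1 - e.2) ?_ ?_ ?_ i₀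
    (n - 1 - j₀) ?_ ?_ ?_
  · unfold Solv
    rw [hc]
    have e1 : mirror n X p.1 (n - 1 - p.2) = X p.1 p.2 := by
      simp only [mirror]; congr 1; omega
    simp only [e1]
    refine and_congr Iff.rfl (and_congr Iff.rfl ?_)
    constructor
    · intro h j hj
      have := h (n - 1 - j) (by omega)
      simp only [mirror] at this
      rwa [show (n : ℤ) - 1 - (n - 1 - j) = j by omega] at this
    · intro h j hj
      exact h (n - 1 - j) (by omega)
  · intro i j hij
    obtain ⟨a, b, c, d⟩ := hX _ _ hij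
    exact ⟨a, b, by omega, by omega⟩
  · simp only [mirror]
    rwa [show (n : ℤ) - 1 - (n - 1 - p.2) = p.2 by omega]
  · obtain ⟨a, b, c, d⟩ := he
    exact ⟨a, b, by simp only; omega, by simp only; omega⟩
  · simp only; omega
  · obtain ⟨a, b, c, d⟩ := h0
    exact ⟨a, b, by omega, by omega⟩
  · intro i h1 h2
    simp only [mirror]
    rw [show (n : ℤ) - 1 - (n - 1 - j₀) = j₀ by omega]
    exact hcol i h1 h2
  · intro j h1 h2
    simp only [mirror]
    simp only at h1 h2
    exact hrow _ (by omega) (by omega)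

end Pool.Agent.Run7.h172.RH
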