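import Pool.Agent.Run7.h172.RHCore

namespace Pool.Agent.Run7.h172.RH

/-- Change of coordinates `(i, j) ↦ (a + s i, b + t j)` with `s, t = ±1`. -/
def pull (s t a b : ℤ) (X : Board) : Board := fun i j => X (a + s * i) (b + t * j)

theorem pm_sq {s : ℤ} (hs : s = 1 ∨ s = -1) : s * s = 1 := by
  rcases hs with rfl | rfl <;> norm_num

theorem pm_cancel {s : ℤ} (hs : s = 1 ∨ s = -1) (a i : ℤ) : a + s * (s * (i - a)) = i := by
  rw [← mul_assoc, pm_sq hs]; ring

theorem pull_put {s t : ℤ} (hs : s = 1 ∨ s = -1) (ht : t = 1 ∨ t = -1) (a b : ℤ) (X : Board)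
    (i j : ℤ) (o : Option Ori) :
    pull s t a b (put X i j o) = put (pull s t a b X) (s * (i - a)) (t * (j - b)) o := by
  funext x y
  simp only [pull, put]
  have e1 : (a + s * x = i) ↔ (x = s * (i - a)) := by
    constructor
    · intro h; rw [← h]; rcases hs with rfl | rfl <;> ring
    · intro h; rw [h]; exact pm_cancel hs a i
  have e2 : (b + t * y = j) ↔ (y = t * (j - b)) := by
    constructor
    · intro h; rw [← h]; rcases ht with rfl | rfl <;> ring
    · intro h; rw [h]; exact pm_cancel ht b j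
  simp only [e1, e2]

theorem pull_pull {s t : ℤ} (hs : s = 1 ∨ s = -1) (ht : t = 1 ∨ t = -1) (a b : ℤ) (X : Board) :
    pull s t (-(s * a)) (-(t * b)) (pull s t a b X) = X := by
  funext x y
  simp only [pull]
  congr 1
  · rcases hs with rfl | rfl <;> ring
  · rcases ht with rfl | rfl <;> ring

theorem pull_pull' {s t : ℤ} (hs : s = 1 ∨ s = -1) (ht : t = 1 ∨ t = -1) (a b : ℤ)
    (G : ℤ → ℤ → Prop) :
    (fun x y => (fun i j => G (a + s * i) (b + t * j)) (-(s * a) + s * x) (-(t * b) + t * y)) =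
      G := by
  funext x y
  simp only
  congr 1
  · rcases hs with rfl | rfl <;> ring
  · rcases ht with rfl | rfl <;> ring

theorem Step.pull {G : ℤ → ℤ → Prop} {X Y : Board} (h : Step G X Y) {s t : ℤ}
    (hs : s = 1 ∨ s = -1) (ht : t = 1 ∨ t = -1) (a b : ℤ) :
    Step (fun i j => G (a + s * i) (b + t * j)) (RH.pull s t a b X) (RH.pull s t a b Y) := by
  rcases h with ⟨i, j, j', hj, hg, hg', h, h', rfl⟩ | ⟨i, i', j, hi, hg, hg', h, h', rfl⟩
  · refine Or.inl ⟨s * (i - a), t * (j - b), t * (j' - b), ?_, ?_, ?_, ?_, ?_, ?_⟩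
    · rcases ht with rfl | rfl <;> omega
    · show G _ _; rw [pm_cancel hs, pm_cancel ht]; exact hg
    · show G _ _; rw [pm_cancel hs, pm_cancel ht]; exact hg'
    · simp only [RH.pull]; rw [pm_cancel hs, pm_cancel ht]; exact h
    · simp only [RH.pull]; rw [pm_cancel hs, pm_cancel ht]; exact h'
    · rw [pull_put hs ht, pull_put hs ht]
  · refine Or.inr ⟨s * (i - a), s * (i' - a), t * (j - b), ?_, ?_, ?_, ?_, ?_, ?_⟩
    · rcases hs with rfl | rfl <;> omega
    · show G _ _; rw [pm_cancel hs, pm_cancel ht]; exact hg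
    · show G _ _; rw [pm_cancel hs, pm_cancel ht]; exact hg'
    · simp only [RH.pull]; rw [pm_cancel hs, pm_cancel ht]; exact h
    · simp only [RH.pull]; rw [pm_cancel hs, pm_cancel ht]; exact h'
    · rw [pull_put hs ht, pull_put hs ht]

theorem Conn.pull {G : ℤ → ℤ → Prop} {X Y : Board} (h : Conn G X Y) {s t : ℤ}
    (hs : s = 1 ∨ s = -1) (ht : t = 1 ∨ t = -1) (a b : ℤ) :
    Conn (fun i j => G (a + s * i) (b + t * j)) (RH.pull s t a b X) (RH.pull s t a b Y) := by
  induction h with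
  | refl => exact Relation.ReflTransGen.refl
  | tail _ h2 ih => exact Relation.ReflTransGen.tail ih (h2.pull hs ht a b)

theorem Conn.of_pull {G : ℤ → ℤ → Prop} {X Y : Board} {s t : ℤ}
    (hs : s = 1 ∨ s = -1) (ht : t = 1 ∨ t = -1) (a b : ℤ)
    (h : Conn (fun i j => G (a + s * i) (b + t * j)) (RH.pull s t a b X) (RH.pull s t a b Y)) :
    Conn G X Y := by
  have h2 := h.pull hs ht (-(s * a)) (-(t * b))
  rw [pull_pull hs ht, pull_pull hs ht, pull_pull' hs ht] at h2
  exact h2

/-- a sign adapted to a nonzero displacement -/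
theorem exists_sign (x : ℤ) (hx : x ≠ 0) : ∃ s : ℤ, (s = 1 ∨ s = -1) ∧ 1 ≤ s * x := by
  rcases lt_or_gt_of_ne hx with h | h
  · exact ⟨-1, Or.inr rfl, by omega⟩
  · exact ⟨1, Or.inl rfl, by omega⟩

/-- Horizontal extraction in general position: the block `H` at `(i, j)` is taken to `(i, j₀)`. -/
theorem extractH (G : ℤ → ℤ → Prop) (i₀ j₀ i j : ℤ) (hi : i ≠ i₀) (hj : j ≠ j₀) (X : Board)
    (hG : ∀ a b, min i₀ i ≤ a → a ≤ max i₀ i → min j₀ j ≤ b → b ≤ max j₀ j → G a b)
    (hcol : ∀ k, min i₀ i ≤ k → k ≤ max i₀ i → X k j₀ = none)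
    (hrow : ∀ c, min j₀ j ≤ c → c ≤ max j₀ j → c ≠ j → X i₀ c = none)
    (hX : X i j = some Ori.H) : Conn G X (put (put X i j none) i j₀ (some Ori.H)) := by
  obtain ⟨s, hs, hs1⟩ := exists_sign (i - i₀) (by omega)
  obtain ⟨t, ht, ht1⟩ := exists_sign (j - j₀) (by omega)
  apply Conn.of_pull hs ht i₀ j₀
  rw [pull_put hs ht, pull_put hs ht]
  have hz : t * (j₀ - j₀) = 0 := by ring
  rw [hz]
  refine (extract _ ((s * (i - i₀) + t * (j - j₀)).toNat) (s * (i - i₀)) (t * (j - j₀)) hs1 ht1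
    (by omega) ?_).2 _ ?_ ?_ ?_
  · intro a b h1 h2 h3 h4
    apply hG <;> rcases hs with rfl | rfl <;> rcases ht with rfl | rfl <;> omega
  · intro k h1 h2
    simp only [RH.pull, mul_zero, add_zero]
    apply hcol <;> rcases hs with rfl | rfl <;> omega
  · intro c h1 h2
    simp only [RH.pull, mul_zero, add_zero]
    apply hrow <;> rcases ht with rfl | rfl <;> omega
  · simp only [RH.pull]; rw [pm_cancel hs, pm_cancel ht]; exact hX

/-- Vertical extraction in general position: the block `V` at `(i, j)` is taken to `(i₀, j)`. -/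
theorem extractV (G : ℤ → ℤ → Prop) (i₀ j₀ i j : ℤ) (hi : i ≠ i₀) (hj : j ≠ j₀) (X : Board)
    (hG : ∀ a b, min i₀ i ≤ a → a ≤ max i₀ i → min j₀ j ≤ b → b ≤ max j₀ j → G a b)
    (hcol : ∀ k, min i₀ i ≤ k → k ≤ max i₀ i → k ≠ i → X k j₀ = none)
    (hrow : ∀ c, min j₀ j ≤ c → c ≤ max j₀ j → X i₀ c = none)
    (hX : X i j = some Ori.V) : Conn G X (put (put X i j none) i₀ j (some Ori.V)) := by
  obtain ⟨s, hs, hs1⟩ := exists_sign (i - i₀) (by omega)
  obtain ⟨t, ht, ht1⟩ := exists_sign (j - j₀) (by omega)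
  apply Conn.of_pull hs ht i₀ j₀
  rw [pull_put hs ht, pull_put hs ht]
  have hz : s * (i₀ - i₀) = 0 := by ring
  rw [hz]
  refine (extract _ ((s * (i - i₀) + t * (j - j₀)).toNat) (s * (i - i₀)) (t * (j - j₀)) hs1 ht1
    (by omega) ?_).1 _ ?_ ?_ ?_
  · intro a b h1 h2 h3 h4
    apply hG <;> rcases hs with rfl | rfl <;> rcases ht with rfl | rfl <;> omega
  · intro c h1 h2
    simp only [RH.pull, mul_zero, add_zero]
    apply hrow <;> rcases ht with rfl | rfl <;> omega
  · intro k h1 h2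
    simp only [RH.pull, mul_zero, add_zero]
    apply hcol <;> rcases hs with rfl | rfl <;> omega
  · simp only [RH.pull]; rw [pm_cancel hs, pm_cancel ht]; exact hX

/-- The unlabelled main lemma: some horizontal block of row `r` can be brought to the cell
`(r, e)`. -/
theorem main_unlabelled (G : ℤ → ℤ → Prop) (i₀ j₀ r t e : ℤ) (hr : r ≠ i₀) (ht : t ≠ j₀)
    (hte : t < e) (hje : j₀ ≤ e) (X : Board)
    (hG : ∀ a b, min i₀ r ≤ a → a ≤ max i₀ r → min j₀ t ≤ b → b ≤ e → G a b)
    (hcol : ∀ k, min i₀ r ≤ k → k ≤ max i₀ r → X k j₀ = none)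
    (hrow : ∀ c, min j₀ t ≤ c → c ≤ e → X i₀ c = none)
    (hX : X r t = some Ori.H) (hXe : X r e ≠ some Ori.H) :
    ∃ Z, Conn G X Z ∧ Z r e = some Ori.H := by
  rcases eq_or_lt_of_le hje with rfl | hje'
  · refine ⟨_, extractH G i₀ j₀ r t hr ht X ?_ hcol ?_ hX, put_same _ _ _ _⟩
    · intro a b h1 h2 h3 h4; exact hG a b h1 h2 h3 (by omega)
    · intro c h1 h2 _; exact hrow c h1 (by omega)
  · -- clear the cell `(r, e)`
    obtain ⟨X', hc, hX't, hX'e, hX'col, hX'row⟩ : ∃ X' : Board, Conn G X X' ∧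
        X' r t = some Ori.H ∧ X' r e = none ∧
        (∀ k, min i₀ r ≤ k → k ≤ max i₀ r → X' k j₀ = none) ∧
        (∀ c, min j₀ t ≤ c → c < e → X' i₀ c = none) := by
      rcases h : X r e with _ | o
      · exact ⟨X, Relation.ReflTransGen.refl, hX, h, hcol, fun c h1 h2 => hrow c h1 (by omega)⟩
      · cases o with
        | H => exact absurd h hXe
        | V =>
          refine ⟨_, extractV G i₀ j₀ r e hr (by omega) X ?_ ?_ ?_ h, ?_, ?_, ?_, ?_⟩
          · intro a b h1 h2 h3 h4; exact hG a b h1 h2 (by omega) (by omega)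
          · intro k h1 h2 _; exact hcol k h1 h2
          · intro c h1 h2; exact hrow c (by omega) (by omega)
          · rw [put_ne _ _ _ _ _ _ (by omega), put_ne _ _ _ _ _ _ (by omega), hX]
          · rw [put_ne _ _ _ _ _ _ (by omega), put_same]
          · intro k h1 h2
            rw [put_ne _ _ _ _ _ _ (by omega), put_ne _ _ _ _ _ _ (by omega)]
            exact hcol k h1 h2
          · intro c h1 h2
            rw [put_ne _ _ _ _ _ _ (by omega), put_ne _ _ _ _ _ _ (by omega)]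
            exact hrow c h1 (by omega)
    have s1 := extractH G i₀ j₀ r t hr ht X'
      (fun a b h1 h2 h3 h4 => hG a b h1 h2 h3 (by omega)) hX'col
      (fun c h1 h2 h3 => hX'row c h1 (by omega)) hX't
    set Z := put (put X' r t none) r e (some Ori.H) with hZ
    have s2 := extractH G i₀ j₀ r e hr (by omega) Z
      (fun a b h1 h2 h3 h4 => hG a b h1 h2 (by omega) (by omega))
      (by
        intro k h1 h2
        rw [hZ, put_ne _ _ _ _ _ _ (by omega), put_ne _ _ _ _ _ _ (by omega)]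
        exact hX'col k h1 h2)
      (by
        intro c h1 h2 h3
        rw [hZ, put_ne _ _ _ _ _ _ (by omega), put_ne _ _ _ _ _ _ (by omega)]
        exact hX'row c (by omega) (by omega))
      (by rw [hZ, put_same])
    have e1 : put (put Z r e none) r j₀ (some Ori.H) =
        put (put X' r t none) r j₀ (some Ori.H) := by
      funext a b
      simp only [hZ, put]
      split_ifs <;> first | rfl | omega | simp_all
    rw [e1] at s2
    exact ⟨Z, (hc.trans s1).trans s2.symm, by rw [hZ, put_same]⟩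

end Pool.Agent.Run7.h172.RH
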